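import Pool.Agent.Lib.MP_a47f92_an.L.Fin

set_option autoImplicit false

namespace Pool.Agent.Results.MP_a47f92_an.HyperbolicCur

open MeasureTheory Pool.Agent.Lib.MP_a47f92_an Pool.Agent.Lib.MP_a47f92_an.L

/-- The equilibrium measure of an attracting current of bidimension `(s, s)` on the projective
space of dimension `k` is a well defined probability measure and it is hyperbolic: almost
everywhere none of the Lyapunov exponents `χ 1 ≥ … ≥ χ k` vanishes, exactly the first `s` are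
positive, a subspace of dimension `k - s` of the tangent space has exponents at most `-c`, and all
other tangent vectors grow with lower rate at least `c`. Currents are linear functionals on smooth
forms. -/
theorem result (k s d : ℕ) (hd : 2 ≤ d) (F : E (k + 1) → E (k + 1)) (hF : IsLift d F)
    (U D : Set (E (k + 1))) (hU : Trap F U) (hD : Trap F D) (hDU : D ⊆ U)
    (hA : ¬ ∃ S : Cur (k + 1) (2 * (s + 1)), Pos S ∧ Cl (⋂ m, F^[m] '' U) S)
    (τ : Cur (k + 1) (2 * s)) (h0 : Pos τ ∨ Ord0 τ) (hτ : Cl D τ) (ha : L.Attr d F D τ) :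
    (∃ ν, L.IsEq d F τ ν) ∧
      ∀ ν, L.IsEq d F τ ν → IsProbabilityMeasure ν ∧ ∀ᵐ z ∂ν,
        (∀ j, 1 ≤ j → j ≤ k → chi F z j ≠ 0 ∧ (0 < chi F z j ↔ j ≤ s)) ∧
        ∃ c : ℝ, 0 < c ∧ ∃ V : Submodule ℂ (E (k + 1)), z ∈ V ∧
          Module.finrank ℂ V + s = k + 1 ∧ (∀ v ∈ V, lyap F z v ≤ (-c : ℝ)) ∧
          ∀ v ∉ V, (c : EReal) ≤ Filter.liminf (rate F z v) Filter.atTop :=
  mainS k s d hd F hF U D hU hD hDU hA τ h0 hτ ha

end Pool.Agent.Results.MP_a47f92_an.HyperbolicCur
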