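import Pool.Agent.Lib.MP_a47f92_an.M.Main

set_option autoImplicit false

namespace Pool.Agent.Results.MP_a47f92_an.SummableMass

open Pool.Agent.Lib.MP_a47f92_an Pool.Agent.Lib.MP_a47f92_an.L

/-- An attracting current of bidimension `(s, s)` on the projective space of dimension `k` is
supported in, and attracting on, a trapping region `V` on which the masses of the forms
`d ^ (-s m) (f ^ m)^* ω ^ (s + 1)` are summable. -/
theorem result (k s d : ℕ) (hd : 2 ≤ d) (F : E (k + 1) → E (k + 1)) (hF : IsLift d F)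
    (U D : Set (E (k + 1))) (hU : Trap F U) (hD : Trap F D) (hDU : D ⊆ U)
    (hA : ¬ ∃ S : Cur (k + 1) (2 * (s + 1)), Pos S ∧ Cl (⋂ m, F^[m] '' U) S)
    (τ : Cur (k + 1) (2 * s)) (h0 : Pos τ ∨ Ord0 τ) (hτ : Cl D τ) (ha : L.Attr d F D τ) :
    ∃ V, Trap F V ∧ V ⊆ D ∧ Cl V τ ∧ L.Attr d F V τ ∧
      ∑' m : ℕ, mss V (pull F^[m] (fs (s + 1))) / (d : ENNReal) ^ (s * m) < ⊤ :=
  sum_main k s d hd F hF U D hU hD hDU hA τ h0 hτ ha

end Pool.Agent.Results.MP_a47f92_an.SummableMass
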